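import Pool.Agent.CSN.Main
import Pool.Agent.PT.Core

/-!
# The conforming stabbing number of rectilinear polygons without holes is computable in
polynomial time

Every chord of the polygon has a pointwise minimal load profile among the feasible conforming
partitions of the part behind it; a dynamic program over the maximal chords computes these
profiles.
-/

set_option autoImplicit false

namespace Pool.Agent.Results.MP_fcf681_lc.PolynomialTime

open Pool.Agent.CSN

/-- The decision problem `given a rectilinear polygon without holes and a number k, is its
conforming stabbing number at most k` is solvable in polynomial time. -/
theorem result : Function.Injective encInst ∧ ∃ f : List (ℤ × ℤ) × ℕ → Bool,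
    Nonempty (Turing.TM2ComputableInPolyTime encInst encBool f) ∧
    ∀ (V : List (ℤ × ℤ)) (k : ℕ), f (V, k) = true ↔ IsRectilinear V ∧ CsnLe V k :=
  main Pool.Agent.PT.core

end Pool.Agent.Results.MP_fcf681_lc.PolynomialTime
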